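import Pool.Agent.Y305.WD.Stm

/-! WD-WK: the meaning of `wk` for the pointwise limits along ultrafilters. -/

set_option autoImplicit false

open Filter Topology Set
open scoped ENNReal NNReal
open Pool.Agent.H86R3 Pool.Agent.H86R3.Wnc

namespace Pool.Agent.Y117.WD

open Pool.Agent.Y305.WD

universe u

theorem wk_near : S_WK.{u} := by
  intro K _ _ _ A M ε hA hwk U
  have hcomp := WeakDual.isCompact_closedBall (𝕜 := ℂ) (E := StrongDual ℂ C(K, ℂ))
    (0 : StrongDual ℂ (StrongDual ℂ C(K, ℂ))) M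
  let f : A → WeakDual ℂ (StrongDual ℂ C(K, ℂ)) := fun a =>
    StrongDual.toWeakDual (canon C(K, ℂ) (a : C(K, ℂ)))
  have hmem : ∀ a : A, f a ∈ (WeakDual.toStrongDual ⁻¹'
      Metric.closedBall (0 : StrongDual ℂ (StrongDual ℂ C(K, ℂ))) M) := by
    intro a
    have h1 : ‖canon C(K, ℂ) (a : C(K, ℂ))‖ ≤ M := (norm_canon_le _).trans (hA _ a.2)
    have h2 : canon C(K, ℂ) (a : C(K, ℂ)) ∈
        Metric.closedBall (0 : StrongDual ℂ (StrongDual ℂ C(K, ℂ))) M := by
      rw [Metric.mem_closedBall]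
      exact (dist_zero_right (canon C(K, ℂ) (a : C(K, ℂ)))).trans_le h1
    exact h2
  obtain ⟨z, _, hz⟩ := hcomp.ultrafilter_le_nhds (U.map f) (by
    rw [Filter.le_principal_iff]
    have h2 : f ⁻¹' (WeakDual.toStrongDual ⁻¹'
        Metric.closedBall (0 : StrongDual ℂ (StrongDual ℂ C(K, ℂ))) M) ∈ (U : Filter A) :=
      Filter.univ_mem' hmem
    exact h2)
  have hzt : Tendsto f (U : Filter A) (𝓝 z) := hz
  have hzA : WeakDual.toStrongDual z ∈ bidualClosure A := by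
    change StrongDual.toWeakDual (WeakDual.toStrongDual z) ∈ closure _
    exact mem_closure_of_tendsto hzt (Eventually.of_forall fun a => ⟨a, a.2, rfl⟩)
  have h1 : Metric.infEDist (WeakDual.toStrongDual z) (range (canon C(K, ℂ))) <
      ENNReal.ofReal ε :=
    lt_of_le_of_lt ((excess_le_iff _ _ _).mp le_rfl _ hzA) hwk
  obtain ⟨y, ⟨g, rfl⟩, hg⟩ := Metric.infEDist_lt_iff.mp h1
  have hε : 0 < ε := ENNReal.ofReal_pos.1 (lt_of_le_of_lt bot_le h1)
  have hd : ‖WeakDual.toStrongDual z - canon C(K, ℂ) g‖ ≤ ε := by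
    have h2 : edist (WeakDual.toStrongDual z) (canon C(K, ℂ) g) ≤ ENNReal.ofReal ε := hg.le
    rw [edist_dist] at h2
    have h3 := (ENNReal.ofReal_le_ofReal_iff hε.le).1 h2
    exact (dist_eq_norm (WeakDual.toStrongDual z) (canon C(K, ℂ) g)).symm.trans_le h3
  refine ⟨g, fun x w hw => ?_⟩
  let ev : StrongDual ℂ C(K, ℂ) := ContinuousMap.evalCLM ℂ x
  have hev : ‖ev‖ ≤ 1 := ContinuousLinearMap.opNorm_le_bound _ zero_le_one fun h => by
    rw [one_mul]
    exact h.norm_coe_le_norm x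
  have ht : Tendsto (fun a : A => (a : C(K, ℂ)) x) (U : Filter A) (𝓝 (z ev)) :=
    ((WeakDual.eval_continuous ev).tendsto z).comp hzt
  have hwz : w = z ev := tendsto_nhds_unique hw ht
  have h4 : w - g x = (WeakDual.toStrongDual z - canon C(K, ℂ) g) ev := by
    rw [hwz]
    rfl
  rw [h4]
  calc ‖(WeakDual.toStrongDual z - canon C(K, ℂ) g) ev‖
      ≤ ‖WeakDual.toStrongDual z - canon C(K, ℂ) g‖ * ‖ev‖ := ContinuousLinearMap.le_opNorm _ _
    _ ≤ ε * 1 := mul_le_mul hd hev (norm_nonneg _) hε.le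
    _ = ε := mul_one ε

end Pool.Agent.Y117.WD
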